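import Mathlib
import Pool.Agent.Q72.Core.Defs
import Pool.Agent.Q72.Core.Main

/-!
# The core of a domain depends on the smoothness class

There is a domain `Ω ⊆ ℂ³` whose `C⁰`-core differs from its `C^s`-core for every `s ≥ 1`
(including `s = ∞`).
-/

set_option autoImplicit false

open Metric Set Filter Topology Q72.Core

namespace Pool.Agent.Results.MP_63d28d_an.CoreDependsOnSmoothness

theorem result : ∃ Ω : Set (EuclideanSpace ℂ (Fin 3)), IsOpen Ω ∧ IsConnected Ω ∧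
    (∃ z ∈ Ω, z ∉ core 0 Ω ∧ ∀ s : ℕ∞, 1 ≤ s → z ∈ core s Ω) ∧
    ∀ s : ℕ∞, 1 ≤ s → core 0 Ω ≠ core s Ω := by
  have h0 : (0 : Cn 3) ∈ Om := Or.inl zero_mem_Om1
  have h1 : (0 : Cn 3) ∉ core 0 Om := by
    rintro ⟨_, h⟩
    apply h
    refine ⟨F, ?_, isPsh_F, bddAbove_F, strictAt_F⟩
    have : (((0 : ℕ∞) : WithTop ℕ∞)) = 0 := rfl
    rw [this, contDiffOn_zero]
    exact continuousOn_F
  have h2 : ∀ s : ℕ∞, 1 ≤ s → (0 : Cn 3) ∈ core s Om := by
    intro s hs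
    refine ⟨h0, ?_⟩
    rintro ⟨f, hf1, hf2, hf3, hf4⟩
    refine no_C1 (fun p hp => ?_) hf2 hf3 hf4
    have h3 : (((s : ℕ∞) : WithTop ℕ∞)) ≠ 0 := by
      intro h
      have h4 : s = 0 := by exact_mod_cast h
      rw [h4] at hs
      exact absurd hs (by simp)
    exact (hf1.contDiffAt (isOpen_Om.mem_nhds hp)).differentiableAt h3
  refine ⟨Om, isOpen_Om, isConnected_Om, ⟨0, h0, h1, h2⟩, fun s hs h => ?_⟩
  rw [h] at h1
  exact h1 (h2 s hs)

end Pool.Agent.Results.MP_63d28d_an.CoreDependsOnSmoothness
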